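import Pool.Agent.Helper92.PU.St

/-! Project PU, module DV2: solutions with small `x`. -/

set_option autoImplicit false
set_option linter.unusedVariables false

open Finset

noncomputable section

namespace Pool.Agent.Helper42.PU

open Pool.Agent.Helper92.PU Pool.Agent.Helper92.PW

private lemma same_sum {n y z y' z' : ℤ} (hn : n ≠ 0) (h : y ^ 3 + z ^ 3 = n)
    (h' : y' ^ 3 + z' ^ 3 = n) (hs : y + z = y' + z') :
    (y' = y ∧ z' = z) ∨ (y' = z ∧ z' = y) := by
  have hs0 : y + z ≠ 0 := by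
    intro h0
    apply hn
    rw [← h]
    have : y ^ 3 + z ^ 3 = (y + z) * (y ^ 2 - y * z + z ^ 2) := by ring
    rw [this, h0, zero_mul]
  have h1 : (y + z) * (y * z - y' * z') = 0 := by
    have e1 : (y + z) ^ 3 - 3 * (y + z) * (y * z) = n := by rw [← h]; ring
    have e2 : (y + z) ^ 3 - 3 * (y + z) * (y' * z') = n := by rw [hs, ← h']; ring
    linarith
  have h2 : y * z - y' * z' = 0 := (mul_eq_zero.mp h1).resolve_left hs0
  have h3 : (y' - y) * (y' - z) = 0 := by
    have h4 : z' = y + z - y' := by linarith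
    rw [h4] at h2
    linear_combination h2
  rcases mul_eq_zero.mp h3 with h5 | h5
  · left
    exact ⟨by linarith, by linarith⟩
  · right
    exact ⟨by linarith, by linarith⟩

private lemma fiber (k x : ℤ) (hn : k - x ^ 3 ≠ 0) (T : Finset Pt)
    (hT : ∀ p ∈ T, Fm p = k ∧ p.1 = x) :
    T.card ≤ 4 * (k - x ^ 3).natAbs.divisors.card := by
  classical
  have hyz : ∀ p ∈ T, p.2.1 ^ 3 + p.2.2 ^ 3 = k - x ^ 3 := by
    intro p hp
    obtain ⟨h1, h2⟩ := hT p hp
    unfold Fm at h1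
    rw [h2] at h1
    linarith
  have h1 : T.card ≤ 2 * (T.image fun p => p.2.1 + p.2.2).card := by
    refine Finset.card_le_mul_card_image T 2 ?_
    intro a ha
    rcases (T.filter fun p => p.2.1 + p.2.2 = a).eq_empty_or_nonempty with h | ⟨p0, hp0⟩
    · rw [h]
      simp
    · rw [Finset.mem_filter] at hp0
      have hsub : (T.filter fun p => p.2.1 + p.2.2 = a) ⊆ {p0, (p0.1, p0.2.2, p0.2.1)} := by
        intro p hp
        rw [Finset.mem_filter] at hp
        rw [Finset.mem_insert, Finset.mem_singleton]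
        have e1 : p.1 = p0.1 := by rw [(hT p hp.1).2, (hT p0 hp0.1).2]
        rcases same_sum hn (hyz p0 hp0.1) (hyz p hp.1) (by rw [hp0.2, hp.2]) with ⟨h3, h4⟩ | ⟨h3, h4⟩
        · left
          exact Prod.ext e1 (Prod.ext h3 h4)
        · right
          exact Prod.ext e1 (Prod.ext h3 h4)
      exact (Finset.card_le_card hsub).trans Finset.card_le_two
  have h2 : (T.image fun p => p.2.1 + p.2.2) ⊆
      ((k - x ^ 3).natAbs.divisors.image fun d : ℕ => (d : ℤ)) ∪
        ((k - x ^ 3).natAbs.divisors.image fun d : ℕ => -(d : ℤ)) := by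
    intro s hs
    rw [Finset.mem_image] at hs
    obtain ⟨p, hp, rfl⟩ := hs
    have hdvd : p.2.1 + p.2.2 ∣ k - x ^ 3 := by
      rw [← hyz p hp]
      exact ⟨p.2.1 ^ 2 - p.2.1 * p.2.2 + p.2.2 ^ 2, by ring⟩
    have hd : (p.2.1 + p.2.2).natAbs ∈ (k - x ^ 3).natAbs.divisors := by
      rw [Nat.mem_divisors]
      exact ⟨Int.natAbs_dvd_natAbs.mpr hdvd, Int.natAbs_ne_zero.mpr hn⟩
    rw [Finset.mem_union, Finset.mem_image, Finset.mem_image]
    rcases Int.natAbs_eq (p.2.1 + p.2.2) with h | h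
    · left
      exact ⟨_, hd, h.symm⟩
    · right
      exact ⟨_, hd, h.symm⟩
  have h3 : (T.image fun p => p.2.1 + p.2.2).card ≤ 2 * (k - x ^ 3).natAbs.divisors.card := by
    refine (Finset.card_le_card h2).trans ((Finset.card_union_le _ _).trans ?_)
    have e1 := Finset.card_image_le (s := (k - x ^ 3).natAbs.divisors) (f := fun d : ℕ => (d : ℤ))
    have e2 := Finset.card_image_le (s := (k - x ^ 3).natAbs.divisors) (f := fun d : ℕ => -(d : ℤ))
    omega
  omega

theorem hDV2 (hDIV : StDIV) : StDV2 := by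
  classical
  intro k ε hNC hε
  obtain ⟨C0, hC0, hD⟩ := hDIV (ε / 3) (by positivity)
  have hk0 : (0 : ℝ) ≤ |(k : ℝ)| := abs_nonneg _
  refine ⟨8 * C0 * (|(k : ℝ)| + 1) ^ (ε / 3), by positivity, ?_⟩
  intro B X hB hX S hS
  have hB0 : 0 < B := by linarith
  set T : ℝ := 4 * (C0 * (|(k : ℝ)| + 1) ^ (ε / 3) * B ^ ε) with hT
  have hT0 : 0 ≤ T := by positivity
  -- fibers
  have hfib : ∀ x ∈ S.image (fun p => p.1), (((S.filter fun p => p.1 = x).card : ℕ) : ℝ) ≤ T := by
    intro x hx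
    rw [Finset.mem_image] at hx
    obtain ⟨p0, hp0, hp0x⟩ := hx
    have hn : k - x ^ 3 ≠ 0 := by
      intro h
      exact hNC x (by linarith)
    have h1 := fiber k x hn (S.filter fun p => p.1 = x) (by
      intro p hp
      rw [Finset.mem_filter] at hp
      exact ⟨(hS p hp.1).1, hp.2⟩)
    have h2 : (((S.filter fun p => p.1 = x).card : ℕ) : ℝ) ≤
        4 * ((k - x ^ 3).natAbs.divisors.card : ℝ) := by exact_mod_cast h1
    have h3 := hD (k - x ^ 3).natAbs (Nat.one_le_iff_ne_zero.mpr (Int.natAbs_ne_zero.mpr hn))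
    have hxB : |(x : ℝ)| ≤ B := by
      rw [← hp0x]
      exact (hS p0 hp0).2.1.1
    have h4 : (((k - x ^ 3).natAbs : ℕ) : ℝ) ≤ (|(k : ℝ)| + 1) * B ^ 3 := by
      rw [Nat.cast_natAbs]
      push_cast
      have h5 : |(k : ℝ) - (x : ℝ) ^ 3| ≤ |(k : ℝ)| + |(x : ℝ)| ^ 3 := by
        have := abs_sub (k : ℝ) ((x : ℝ) ^ 3)
        rwa [abs_pow] at this
      have h6 : |(x : ℝ)| ^ 3 ≤ B ^ 3 := pow_le_pow_left₀ (abs_nonneg _) hxB 3
      have h7 : 1 ≤ B ^ 3 := one_le_pow₀ hB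
      nlinarith
    have h5 : (((k - x ^ 3).natAbs : ℕ) : ℝ) ^ (ε / 3) ≤
        (|(k : ℝ)| + 1) ^ (ε / 3) * B ^ ε := by
      calc (((k - x ^ 3).natAbs : ℕ) : ℝ) ^ (ε / 3) ≤ ((|(k : ℝ)| + 1) * B ^ 3) ^ (ε / 3) :=
            Real.rpow_le_rpow (by positivity) h4 (by positivity)
        _ = (|(k : ℝ)| + 1) ^ (ε / 3) * B ^ ε := by
            rw [Real.mul_rpow (by positivity) (by positivity), ← Real.rpow_natCast B 3,
              ← Real.rpow_mul hB0.le]
            congr 2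
            push_cast
            ring
    calc (((S.filter fun p => p.1 = x).card : ℕ) : ℝ)
        ≤ 4 * ((k - x ^ 3).natAbs.divisors.card : ℝ) := h2
      _ ≤ 4 * (C0 * (((k - x ^ 3).natAbs : ℕ) : ℝ) ^ (ε / 3)) := by linarith
      _ ≤ 4 * (C0 * ((|(k : ℝ)| + 1) ^ (ε / 3) * B ^ ε)) := by
          have := mul_le_mul_of_nonneg_left h5 hC0.le
          linarith
      _ = T := by rw [hT]; ring
  -- number of values of `x`
  have hcard : ((S.image fun p => p.1).card : ℝ) ≤ 2 * (X + 1) := by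
    have hsub : (S.image fun p => p.1) ⊆ Finset.Icc (-⌊X⌋) ⌊X⌋ := by
      intro x hx
      rw [Finset.mem_image] at hx
      obtain ⟨p, hp, rfl⟩ := hx
      have h1 := (hS p hp).2.2
      rw [abs_le] at h1
      rw [Finset.mem_Icc]
      constructor
      · have : -p.1 ≤ ⌊X⌋ := Int.le_floor.mpr (by push_cast; linarith)
        linarith
      · exact Int.le_floor.mpr h1.2
    have h1 := Finset.card_le_card hsub
    rw [Int.card_Icc] at h1
    have hf0 : 0 ≤ ⌊X⌋ := Int.floor_nonneg.mpr hX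
    have h2 : ((S.image fun p => p.1).card : ℤ) ≤ 2 * ⌊X⌋ + 1 := by
      have : ((⌊X⌋ + 1 - -⌊X⌋).toNat : ℤ) = ⌊X⌋ + 1 - -⌊X⌋ := Int.toNat_of_nonneg (by linarith)
      have h3 : ((S.image fun p => p.1).card : ℤ) ≤ ((⌊X⌋ + 1 - -⌊X⌋).toNat : ℤ) := by
        exact_mod_cast h1
      linarith
    have h3 : ((S.image fun p => p.1).card : ℝ) ≤ 2 * (⌊X⌋ : ℝ) + 1 := by exact_mod_cast h2
    have h4 := Int.floor_le X
    linarith
  have hsum : (S.card : ℝ) = ∑ x ∈ S.image (fun p => p.1),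
      (((S.filter fun p => p.1 = x).card : ℕ) : ℝ) := by
    rw [← Nat.cast_sum]
    congr 1
    exact Finset.card_eq_sum_card_image (fun p : Pt => p.1) S
  rw [hsum]
  calc ∑ x ∈ S.image (fun p => p.1), (((S.filter fun p => p.1 = x).card : ℕ) : ℝ)
      ≤ ∑ _x ∈ S.image (fun p => p.1), T := Finset.sum_le_sum hfib
    _ = ((S.image fun p => p.1).card : ℝ) * T := by rw [Finset.sum_const, nsmul_eq_mul]
    _ ≤ 2 * (X + 1) * T := mul_le_mul_of_nonneg_right hcard hT0
    _ = 8 * C0 * (|(k : ℝ)| + 1) ^ (ε / 3) * (X + 1) * B ^ ε := by rw [hT]; ring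

end Pool.Agent.Helper42.PU
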